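import Pool.Agent.Helper3_PPE.Stmts

/-!
# Squad PPE, module PHI: `Φ` is constant on every curve
-/

set_option autoImplicit false

universe u

namespace Pool.Agent.PPE.H90

open MvPolynomial PGH PPX PPZ

theorem ord_prod_zpow {k E : Type*} [Field k] [Field E] [Algebra k E] (P : Place k E)
    {ι : Type*} (s : Finset ι) (y : ι → E) (m : ι → ℤ) (hy : ∀ c ∈ s, y c ≠ 0) :
    (∏ c ∈ s, y c ^ m c) ≠ 0 ∧ P.ord (∏ c ∈ s, y c ^ m c) = ∑ c ∈ s, m c * P.ord (y c) := by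
  classical
  induction s using Finset.induction_on with
  | empty =>
    rw [Finset.prod_empty, Finset.sum_empty]
    refine ⟨one_ne_zero, ?_⟩
    have h := P.ord_const (1 : k)
    rwa [map_one] at h
  | insert a s ha ih =>
    obtain ⟨h1, h2⟩ := ih fun c hc => hy c (Finset.mem_insert_of_mem hc)
    have h3 : y a ^ m a ≠ 0 := zpow_ne_zero _ (hy a (Finset.mem_insert_self a s))
    rw [Finset.prod_insert ha, Finset.sum_insert ha]
    refine ⟨mul_ne_zero h3 h1, ?_⟩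
    rw [P.ord_mul h3 h1, P.ord_zpow, h2]

/-- a common denominator -/
theorem exists_den (s : Finset ℚ) : ∃ d : ℕ, 0 < d ∧ ∀ q ∈ s, ∃ m : ℤ, (m : ℚ) = d * q := by
  classical
  induction s using Finset.induction_on with
  | empty => exact ⟨1, one_pos, fun q hq => absurd hq (Finset.notMem_empty q)⟩
  | insert a s ha ih =>
    obtain ⟨d, hd, h⟩ := ih
    refine ⟨d * a.den, Nat.mul_pos hd a.den_pos, fun q hq => ?_⟩
    rcases Finset.mem_insert.1 hq with rfl | hq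
    · refine ⟨d * q.num, ?_⟩
      have h1 := Rat.mul_den_eq_num q
      push_cast
      rw [← h1]
      ring
    · obtain ⟨m, hm⟩ := h q hq
      refine ⟨m * a.den, ?_⟩
      push_cast
      rw [hm]
      ring

theorem phi (K : ℕ) (hnod : NodStmt.{u} K) : PhiStmt.{u} K := by
  intro k _ _ _ N₁ N₂ a b ha hb s₁ s₂ ρ₁ ρ₂
  classical
  obtain ⟨d, hd, hden⟩ := exists_den (s₁.image ρ₁ ∪ s₂.image ρ₂)
  have hm₁ : ∀ c : k, ∃ m : ℤ, c ∈ s₁ → (m : ℚ) = d * ρ₁ c := by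
    intro c
    by_cases hc : c ∈ s₁
    · obtain ⟨m, hm⟩ := hden (ρ₁ c) (Finset.mem_union_left _ (Finset.mem_image_of_mem _ hc))
      exact ⟨m, fun _ => hm⟩
    · exact ⟨0, fun h => absurd h hc⟩
  have hm₂ : ∀ c : k, ∃ m : ℤ, c ∈ s₂ → (m : ℚ) = d * ρ₂ c := by
    intro c
    by_cases hc : c ∈ s₂
    · obtain ⟨m, hm⟩ := hden (ρ₂ c) (Finset.mem_union_right _ (Finset.mem_image_of_mem _ hc))
      exact ⟨m, fun _ => hm⟩
    · exact ⟨0, fun h => absurd h hc⟩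
  choose m₁ hm₁ using hm₁
  choose m₂ hm₂ using hm₂
  refine ⟨d, m₁, m₂, hd, hm₁, hm₂, fun C hC => ?_⟩
  obtain ⟨-, -, -, -, -, -, -, -, -, hcon, hth⟩ := hnod a b ha hb C
  have hx : ∀ c : k, C.x - algebraMap k C.E c ≠ 0 := fun c h =>
    (hcon c).1 (sub_eq_zero.1 h).symm
  have hz : ∀ c : k, C.z - algebraMap k C.E c ≠ 0 := fun c h =>
    (hcon c).2 (sub_eq_zero.1 h).symm
  have hf : C.f ≠ 0 := Finset.prod_ne_zero_iff.2 fun i _ => hx (a i)
  have hg : C.g ≠ 0 := Finset.prod_ne_zero_iff.2 fun j _ => hz (b j)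
  have hph : C.ph ≠ 0 := div_ne_zero (mul_ne_zero hth (pow_ne_zero _ hg)) (pow_ne_zero _ hf)
  have hphd : C.ph ^ d ≠ 0 := pow_ne_zero _ hph
  have hne : Phi C s₁ s₂ d m₁ m₂ ≠ 0 ∧ ∀ P : Place k C.E, P.ord (Phi C s₁ s₂ d m₁ m₂) =
      d * P.ord C.ph + ∑ c ∈ s₁, m₁ c * P.ord (C.x - algebraMap k C.E c) +
        ∑ c ∈ s₂, (- m₂ c) * P.ord (C.z - algebraMap k C.E c) := by
    constructor
    · unfold Phi
      refine mul_ne_zero (mul_ne_zero hphd ?_) ?_
      · exact Finset.prod_ne_zero_iff.2 fun c _ => zpow_ne_zero _ (hx c)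
      · exact Finset.prod_ne_zero_iff.2 fun c _ => zpow_ne_zero _ (hz c)
    · intro P
      obtain ⟨h1, h2⟩ := ord_prod_zpow P s₁ (fun c => C.x - algebraMap k C.E c) m₁
        fun c _ => hx c
      obtain ⟨h3, h4⟩ := ord_prod_zpow P s₂ (fun c => C.z - algebraMap k C.E c) (fun c => - m₂ c)
        fun c _ => hz c
      unfold Phi
      rw [P.ord_mul (mul_ne_zero hphd h1) h3, P.ord_mul hphd h1, P.ord_pow, h2, h4]
  obtain ⟨hne, hord⟩ := hne
  have h0 : ∀ P : Place k C.E, P.ord (Phi C s₁ s₂ d m₁ m₂) = 0 := by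
    intro P
    have h1 := hC P
    have h2 : ((P.ord (Phi C s₁ s₂ d m₁ m₂) : ℤ) : ℚ) = 0 := by
      rw [hord P]
      push_cast
      rw [h1]
      have h3 : ∑ c ∈ s₁, (m₁ c : ℚ) * (P.ord (C.x - algebraMap k C.E c) : ℚ) =
          d * ∑ c ∈ s₁, ρ₁ c * P.ord (C.x - algebraMap k C.E c) := by
        rw [Finset.mul_sum]
        refine Finset.sum_congr rfl fun c hc => ?_
        rw [hm₁ c hc, mul_assoc]
      have h4 : ∑ c ∈ s₂, (-(m₂ c : ℚ)) * (P.ord (C.z - algebraMap k C.E c) : ℚ) =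
          -(d * ∑ c ∈ s₂, ρ₂ c * P.ord (C.z - algebraMap k C.E c)) := by
        rw [Finset.mul_sum, ← Finset.sum_neg_distrib]
        refine Finset.sum_congr rfl fun c hc => ?_
        rw [hm₂ c hc]
        ring
      rw [h3, h4]
      ring
    exact_mod_cast h2
  obtain ⟨c, hc⟩ := const_of_ge_zero (L := k) (y := Phi C s₁ s₂ d m₁ m₂) fun P => by
    rw [P.ge_iff hne, h0 P]
  refine ⟨c, ?_, hc.symm⟩
  rintro rfl
  rw [map_zero] at hc
  exact hne hc.symm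

end Pool.Agent.PPE.H90
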